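import Pool.Agent.H17.GS.Stm
import Pool.Agent.H77.TF.Pri

set_option autoImplicit false

/-! EQV: homogeneous syzygies and logarithmic fields modulo the Euler field (helper22). -/

open MvPolynomial Module Pool.Agent.H77.TF

namespace Pool.Agent.H22.GS

variable {K : Type} [Field K]

/-- the derivation defined by `v` -/
noncomputable def D (v : Fin 3 → MvPolynomial (Fin 3) K) (f : MvPolynomial (Fin 3) K) :
    MvPolynomial (Fin 3) K := ∑ j, v j * pderiv j f

theorem D_mul (v : Fin 3 → MvPolynomial (Fin 3) K) (f g : MvPolynomial (Fin 3) K) :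
    D v (f * g) = D v f * g + f * D v g := by
  unfold D
  rw [Finset.sum_mul, Finset.mul_sum, ← Finset.sum_add_distrib]
  refine Finset.sum_congr rfl fun j _ => ?_
  rw [pderiv_mul]
  ring

theorem D_lin (v : Fin 3 → MvPolynomial (Fin 3) K) (a : Fin 3 → K) : D v (lin a) = evl a v := by
  unfold D evl
  refine Finset.sum_congr rfl fun j _ => ?_
  have h : pderiv j (lin a) = C (a j) := by
    unfold lin
    rw [map_sum, Finset.sum_eq_single j]
    · simp
    · intro i _ hij
      rw [pderiv_C_mul, pderiv_X_of_ne hij, mul_zero]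
    · simp
  rw [h, mul_comm]

theorem D_prod {n : ℕ} (v : Fin 3 → MvPolynomial (Fin 3) K) (A : Fin n → Fin 3 → K)
    (s : Finset (Fin n)) :
    D v (∏ i ∈ s, lin (A i)) = ∑ i ∈ s, (∏ k ∈ s.erase i, lin (A k)) * evl (A i) v := by
  classical
  induction s using Finset.induction_on with
  | empty => simp [D]
  | insert a s has ih =>
    rw [Finset.prod_insert has, D_mul, ih, D_lin, Finset.sum_insert has, Finset.erase_insert has,
      mul_comm (evl (A a) v), Finset.mul_sum]
    congr 1
    refine Finset.sum_congr rfl fun i hi => ?_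
    have hne : a ≠ i := by
      rintro rfl
      exact has hi
    rw [Finset.erase_insert_of_ne hne, Finset.prod_insert (fun h => has (Finset.mem_of_mem_erase h))]
    ring

theorem D_X {n : ℕ} (A : Fin n → Fin 3 → K) :
    D (fun j => X j) (∏ i, lin (A i)) = C (n : K) * ∏ i, lin (A i) := by
  classical
  rw [D_prod]
  have h : ∀ i ∈ (Finset.univ : Finset (Fin n)),
      (∏ k ∈ Finset.univ.erase i, lin (A k)) * evl (A i) (fun j => X j) = ∏ k, lin (A k) := by
    intro i hi
    rw [mul_comm]
    exact Finset.mul_prod_erase Finset.univ (fun k => lin (A k)) hi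
  rw [Finset.sum_congr rfl h, Finset.sum_const, Finset.card_univ, Fintype.card_fin, nsmul_eq_mul,
    C_eq_coe_nat]

theorem lin_hom {l : ℕ} (a : Fin l → K) : (lin a).IsHomogeneous 1 := by
  unfold lin
  exact IsHomogeneous.sum _ _ _ fun i _ => isHomogeneous_C_mul_X _ _

theorem evl_hom {l : ℕ} (a : Fin l → K) {v : Fin l → MvPolynomial (Fin l) K}
    {m : ℕ} (hv : ∀ i, (v i).IsHomogeneous m) : (evl a v).IsHomogeneous m := by
  unfold evl
  refine IsHomogeneous.sum _ _ _ fun i _ => ?_
  simpa using (isHomogeneous_C (Fin l) (a i)).mul (hv i)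

theorem comp_succ (a : Fin 3 → K) (g : MvPolynomial (Fin 3) K) (m : ℕ) :
    homogeneousComponent (m + 1) (lin a * g) = lin a * homogeneousComponent m g := by
  have h1 : lin a * g = ∑ i ∈ Finset.range (g.totalDegree + 1), lin a * homogeneousComponent i g := by
    rw [← Finset.mul_sum, sum_homogeneousComponent]
  have h2 : ∀ i, homogeneousComponent (m + 1) (lin a * homogeneousComponent i g) =
      if m = i then lin a * homogeneousComponent i g else 0 := by
    intro i
    have h3 : (lin a * homogeneousComponent i g) ∈ homogeneousSubmodule (Fin 3) K (1 + i) :=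
      (lin_hom a).mul (homogeneousComponent_isHomogeneous i g)
    rw [homogeneousComponent_of_mem h3]
    by_cases h : m = i
    · rw [if_pos h, if_pos (by omega)]
    · rw [if_neg h, if_neg (by omega)]
  rw [h1, map_sum, Finset.sum_congr rfl fun i _ => h2 i, Finset.sum_ite_eq]
  split_ifs with h
  · rfl
  · rw [homogeneousComponent_eq_zero _ _ (by
      rw [Finset.mem_range] at h
      omega), mul_zero]

theorem comp_zero (a : Fin 3 → K) (g : MvPolynomial (Fin 3) K) :
    homogeneousComponent 0 (lin a * g) = 0 := by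
  have h1 : lin a * g = ∑ i ∈ Finset.range (g.totalDegree + 1), lin a * homogeneousComponent i g := by
    rw [← Finset.mul_sum, sum_homogeneousComponent]
  rw [h1, map_sum]
  refine Finset.sum_eq_zero fun i _ => ?_
  have h3 : (lin a * homogeneousComponent i g) ∈ homogeneousSubmodule (Fin 3) K (1 + i) :=
    (lin_hom a).mul (homogeneousComponent_isHomogeneous i g)
  rw [homogeneousComponent_of_mem h3, if_neg (by omega)]

theorem quot {a : Fin 3 → K} (ha : a ≠ 0) {p g : MvPolynomial (Fin 3) K} {e : ℕ}
    (hp : p.IsHomogeneous e) (h : p = lin a * g) :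
    ∀ j, (g * X j).IsHomogeneous e := by
  have hl := lin_ne_zero ha
  intro j
  cases e with
  | zero =>
    have h1 : homogeneousComponent 0 p = p := by
      rw [homogeneousComponent_of_mem (show p ∈ homogeneousSubmodule (Fin 3) K 0 from hp), if_pos rfl]
    rw [h, comp_zero] at h1
    have h2 : g = 0 := (mul_eq_zero.mp h1.symm).resolve_left hl
    rw [h2, zero_mul]
    exact isHomogeneous_zero _ _ _
  | succ m =>
    have h1 : homogeneousComponent (m + 1) p = p := by
      rw [homogeneousComponent_of_mem (show p ∈ homogeneousSubmodule (Fin 3) K (m + 1) from hp),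
        if_pos rfl]
    rw [h, comp_succ] at h1
    have h2 : homogeneousComponent m g = g := mul_left_cancel₀ hl h1
    rw [← h2]
    exact (homogeneousComponent_isHomogeneous m g).mul (isHomogeneous_X K j)

/-- **EQV** -/
theorem eqv : Pool.Agent.H17.GS.S_EQV := by
  intro K _ _ n A hA hn e
  classical
  have hf0 : (∏ i, lin (A i)) ≠ 0 := Finset.prod_ne_zero_iff.mpr fun i _ => lin_ne_zero (hA.1 i)
  have hn0 : (n : K) ≠ 0 := Nat.cast_ne_zero.mpr (by omega)
  have hnC : (C (n : K) : MvPolynomial (Fin 3) K) ≠ 0 := by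
    rw [Ne, C_eq_zero]
    exact hn0
  constructor
  · rintro ⟨v, hv, hhom, hv0⟩
    have hD : D v (∏ i, lin (A i)) = 0 := hv
    refine ⟨v, fun i => ?_, hhom, ?_⟩
    · have h1 := hD
      rw [D_prod, ← Finset.add_sum_erase _ _ (Finset.mem_univ i)] at h1
      have h2 : lin (A i) ∣ (∏ k ∈ Finset.univ.erase i, lin (A k)) * evl (A i) v := by
        rw [eq_neg_of_add_eq_zero_left h1, dvd_neg]
        refine Finset.dvd_sum fun k hk => ?_
        refine Dvd.dvd.mul_right ?_ _
        exact Finset.dvd_prod_of_mem _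
          (Finset.mem_erase.mpr ⟨(Finset.ne_of_mem_erase hk).symm, Finset.mem_univ i⟩)
      obtain ⟨hpr, hprop⟩ := pri K 3 (A i) (hA.1 i)
      rcases hpr.dvd_or_dvd h2 with h3 | h3
      · exfalso
        obtain ⟨k, hk, h4⟩ := hpr.exists_mem_finset_dvd h3
        obtain ⟨c, hc⟩ := hprop _ h4
        exact hA.2 k i (Finset.ne_of_mem_erase hk) c hc
      · exact h3
    · by_contra hcon
      push Not at hcon
      refine hv0 (funext fun i => ?_)
      have h1 : X i * D v (∏ i, lin (A i)) = v i * D (fun j => X j) (∏ i, lin (A i)) := by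
        unfold D
        rw [Finset.mul_sum, Finset.mul_sum]
        refine Finset.sum_congr rfl fun j _ => ?_
        rw [← mul_assoc, hcon i j]
        ring
      rw [hD, mul_zero, D_X] at h1
      exact (mul_eq_zero.mp h1.symm).resolve_right (mul_ne_zero hnC hf0)
  · rintro ⟨v, hv, hhom, hne⟩
    choose g hg using fun i => hv i
    have h1 : D v (∏ i, lin (A i)) = (∏ i, lin (A i)) * ∑ i, g i := by
      rw [D_prod, Finset.mul_sum]
      refine Finset.sum_congr rfl fun i hi => ?_
      have h2 := Finset.mul_prod_erase Finset.univ (fun k => lin (A k)) hi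
      rw [hg i, ← h2]
      ring
    set G := ∑ i, g i with hG
    have h3 : ∀ j, (G * X j).IsHomogeneous e := by
      intro j
      rw [hG, Finset.sum_mul]
      exact IsHomogeneous.sum _ _ _ fun i _ => quot (hA.1 i) (evl_hom (A i) hhom) (hg i) j
    refine ⟨fun j => v j - C ((n : K)⁻¹) * (G * X j), ?_, fun j => ?_, fun h0 => ?_⟩
    · show D (fun j => v j - C ((n : K)⁻¹) * (G * X j)) (∏ i, lin (A i)) = 0
      have h4 : D (fun j => v j - C ((n : K)⁻¹) * (G * X j)) (∏ i, lin (A i)) =
          D v (∏ i, lin (A i)) - C ((n : K)⁻¹) * G * D (fun j => X j) (∏ i, lin (A i)) := by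
        unfold D
        rw [Finset.mul_sum, ← Finset.sum_sub_distrib]
        refine Finset.sum_congr rfl fun j _ => ?_
        ring
      have h5 : (C ((n : K)⁻¹) : MvPolynomial (Fin 3) K) * C (n : K) = 1 := by
        rw [← C_mul, inv_mul_cancel₀ hn0, C_1]
      rw [h4, h1, D_X]
      linear_combination (-(G * ∏ i, lin (A i))) * h5
    · refine (hhom j).sub ?_
      simpa using (isHomogeneous_C (Fin 3) ((n : K)⁻¹)).mul (h3 j)
    · obtain ⟨i, j, hij⟩ := hne
      apply hij
      have h6 : ∀ j, v j = C ((n : K)⁻¹) * (G * X j) := fun j => sub_eq_zero.mp (congrFun h0 j)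
      rw [h6 i, h6 j]
      ring

end Pool.Agent.H22.GS
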